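import Pool.Agent.H798.BV.Stm5

set_option autoImplicit false

open MeasureTheory Metric Set Real Filter Topology

namespace Pool.Agent.H279.BV

open Pool.Agent.H798.BV

/-- Cauchy formula for the Taylor coefficients at a point `w` of the disc which need not be its center. -/
theorem coeff_circle (c w : ℂ) (R : ℝ) (hw : w ∈ ball c R) (U : Set ℂ) (hU : IsOpen U)
    (hUc : closedBall c R ⊆ U) : ∀ (n : ℕ) (f : ℂ → ℂ) (p : FormalMultilinearSeries ℂ ℂ ℂ),
      DifferentiableOn ℂ f U → HasFPowerSeriesAt f p w →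
      (∮ z in C(c, R), ((z - w) ^ (n + 1))⁻¹ • f z) = (2 * π * Complex.I) • p.coeff n := by
  have hR : 0 < R := pos_of_mem_ball hw
  have hwU : U ∈ 𝓝 w := hU.mem_nhds (hUc (ball_subset_closedBall hw))
  have hne : ∀ z ∈ sphere c R, z - w ≠ 0 := by
    intro z hz h
    have h1 : z = w := sub_eq_zero.1 h
    rw [h1] at hz
    rw [mem_ball] at hw
    rw [mem_sphere] at hz
    exact absurd hz hw.ne
  intro n
  induction n with
  | zero =>
    intro f p hf hp
    have h1 := (hf.mono hUc).circleIntegral_sub_inv_smul hw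
    have h2 : p.coeff 0 = f w := hp.coeff_zero 1
    rw [h2, ← h1]
    simp
  | succ n ih =>
    intro f p hf hp
    have hd : DifferentiableOn ℂ (dslope f w) U := (Complex.differentiableOn_dslope hwU).2 hf
    have h1 := ih (dslope f w) p.fslope hd (hp.has_fpower_series_dslope_fslope)
    rw [FormalMultilinearSeries.coeff_fslope] at h1
    rw [← h1]
    have h0 : (∮ z in C(c, R), (z - w) ^ (-((n : ℤ) + 2)) * f w) = 0 := by
      have h2 := circleIntegral.integral_sub_zpow_of_ne (n := -((n : ℤ) + 2)) (by omega) c w R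
      have h3 : (∮ z in C(c, R), (z - w) ^ (-((n : ℤ) + 2)) * f w)
          = (∮ z in C(c, R), (z - w) ^ (-((n : ℤ) + 2))) * f w := by
        have h4 := circleIntegral.integral_smul (f w) (fun z => (z - w) ^ (-((n : ℤ) + 2))) c R
        simp only [smul_eq_mul] at h4
        rw [mul_comm, ← h4]
        congr 1
        ext z
        ring
      rw [h3, h2, zero_mul]
    have hcont1 : ContinuousOn (fun z : ℂ => (z - w) ^ (-((n : ℤ) + 2)) * f w) (sphere c R) := by
      refine ContinuousOn.mul ?_ continuousOn_const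
      refine ContinuousOn.zpow₀ (by fun_prop) _ ?_
      intro z hz
      exact Or.inl (hne z hz)
    have hcont2 : ContinuousOn (fun z : ℂ => ((z - w) ^ (n + 1))⁻¹ • dslope f w z) (sphere c R) := by
      have e1 : ContinuousOn (fun z : ℂ => ((z - w) ^ (n + 1))⁻¹) (sphere c R) := by
        refine ContinuousOn.inv₀ (by fun_prop) ?_
        intro z hz
        exact pow_ne_zero _ (hne z hz)
      exact e1.smul ((hd.continuousOn).mono (sphere_subset_closedBall.trans hUc))
    have h5 : (∮ z in C(c, R), ((z - w) ^ (n + 1 + 1))⁻¹ • f z)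
        = ∮ z in C(c, R), ((z - w) ^ (-((n : ℤ) + 2)) * f w + ((z - w) ^ (n + 1))⁻¹ • dslope f w z) := by
      refine circleIntegral.integral_congr hR.le ?_
      intro z hz
      have hz0 := hne z hz
      have h6 : f z = f w + (z - w) * dslope f w z := by
        have h7 : (z - w) • dslope f w z = f z - f w := sub_smul_dslope f w z
        rw [smul_eq_mul] at h7
        rw [h7]
        ring
      have h8 : (z - w) ^ (-((n : ℤ) + 2)) = ((z - w) ^ (n + 1 + 1))⁻¹ := by
        rw [zpow_neg]
        congr 1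
      simp only [smul_eq_mul]
      rw [h8]
      rw [h6]
      field_simp
      ring
    rw [h5, circleIntegral.integral_add (hcont1.circleIntegrable hR.le) (hcont2.circleIntegrable hR.le),
      h0, zero_add]

/-- The same as a circle average. -/
theorem coeff_avg (c w : ℂ) (R : ℝ) (hw : w ∈ ball c R) (U : Set ℂ) (hU : IsOpen U)
    (hUc : closedBall c R ⊆ U) (n : ℕ) (f : ℂ → ℂ) (p : FormalMultilinearSeries ℂ ℂ ℂ)
    (hf : DifferentiableOn ℂ f U) (hp : HasFPowerSeriesAt f p w) :
    circleAverage (fun z => ((z - c) / (z - w) ^ (n + 1)) * f z) c R = p.coeff n := by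
  have hR : 0 < R := pos_of_mem_ball hw
  have h1 := coeff_circle c w R hw U hU hUc n f p hf hp
  rw [circleAverage_eq_circleIntegral hR.ne']
  have h2 : (∮ z in C(c, R), (z - c)⁻¹ • ((z - c) / (z - w) ^ (n + 1) * f z))
      = ∮ z in C(c, R), ((z - w) ^ (n + 1))⁻¹ • f z := by
    refine circleIntegral.integral_congr hR.le ?_
    intro z hz
    have hz0 : z - c ≠ 0 := by
      intro h
      rw [mem_sphere, dist_eq_norm, h, norm_zero] at hz
      exact hR.ne hz
    simp only [smul_eq_mul]
    field_simp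
  rw [h2, h1, smul_smul, inv_mul_cancel₀ Complex.two_pi_I_ne_zero, one_smul]

/-- The conjugate part has mean zero. -/
theorem conj_avg (c w : ℂ) (R : ℝ) (hw : w ∈ ball c R) (U : Set ℂ)
    (hUc : closedBall c R ⊆ U) (n : ℕ) (f : ℂ → ℂ) (hf : DifferentiableOn ℂ f U) :
    circleAverage (fun z => ((z - c) / (z - w) ^ (n + 2)) * (starRingEnd ℂ) (f z)) c R = 0 := by
  have hR : 0 < R := pos_of_mem_ball hw
  have hwR : ‖w - c‖ < R := by rwa [← mem_ball_iff_norm]
  set h : ℂ → ℂ := fun z => ((R : ℂ) ^ 2 * (z - c) ^ (n + 1) /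
    ((R : ℂ) ^ 2 - (starRingEnd ℂ) (w - c) * (z - c)) ^ (n + 2)) * f z with hh
  have hden : ∀ z ∈ closedBall c R, (R : ℂ) ^ 2 - (starRingEnd ℂ) (w - c) * (z - c) ≠ 0 := by
    intro z hz h0
    have h1 : ((R : ℂ) ^ 2) = (starRingEnd ℂ) (w - c) * (z - c) := sub_eq_zero.1 h0
    have h2 := congrArg norm h1
    rw [norm_mul, RCLike.norm_conj, norm_pow, Complex.norm_real, Real.norm_eq_abs, abs_of_pos hR] at h2
    have h3 : ‖z - c‖ ≤ R := by rwa [← mem_closedBall_iff_norm]
    have h4 : ‖w - c‖ * ‖z - c‖ ≤ ‖w - c‖ * R := mul_le_mul_of_nonneg_left h3 (norm_nonneg _)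
    nlinarith
  have hdiff : DifferentiableOn ℂ h (closedBall c R) := by
    rw [hh]
    refine DifferentiableOn.mul ?_ (hf.mono hUc)
    refine DifferentiableOn.div (by fun_prop) (by fun_prop) ?_
    intro z hz
    exact pow_ne_zero _ (hden z hz)
  have hmv : circleAverage h c R = h c := by
    have h1 : DiffContOnCl ℂ h (ball c |R|) := by
      rw [abs_of_pos hR]
      exact (hdiff.mono closure_ball_subset_closedBall).diffContOnCl
    exact h1.circleAverage
  have hc0 : h c = 0 := by
    rw [hh]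
    simp
  have hci : CircleIntegrable h c R :=
    (hdiff.continuousOn.mono sphere_subset_closedBall).circleIntegrable hR.le
  have h5 := (Complex.conjCLE : ℂ →L[ℝ] ℂ).circleAverage_comp_comm hci
  rw [hmv, hc0, map_zero] at h5
  rw [← h5]
  refine circleAverage_congr_sphere ?_
  intro z hz
  rw [abs_of_pos hR] at hz
  have hzn : ‖z - c‖ = R := by rwa [← mem_sphere_iff_norm]
  have hz0 : z - c ≠ 0 := by
    intro h0
    rw [h0, norm_zero] at hzn
    exact hR.ne hzn
  have hzw : z - w ≠ 0 := by
    intro h0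
    have h6 : z = w := sub_eq_zero.1 h0
    rw [h6] at hzn
    linarith
  have hcj : (starRingEnd ℂ) (z - c) = (R : ℂ) ^ 2 / (z - c) := by
    rw [eq_div_iff hz0, mul_comm, Complex.mul_conj, Complex.normSq_eq_norm_sq, hzn]
    push_cast
    ring
  have hR0 : (R : ℂ) ≠ 0 := by exact_mod_cast hR.ne'
  have hRe : (starRingEnd ℂ) (R : ℂ) = (R : ℂ) := Complex.conj_ofReal R
  have h7 : (starRingEnd ℂ) (h z) = ((R : ℂ) ^ 2 * ((R : ℂ) ^ 2 / (z - c)) ^ (n + 1) /
      ((R : ℂ) ^ 2 - (w - c) * ((R : ℂ) ^ 2 / (z - c))) ^ (n + 2)) * (starRingEnd ℂ) (f z) := by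
    rw [hh]
    simp only [map_mul, map_div₀, map_pow, map_sub, Complex.conj_conj, hRe]
    rw [← map_sub, hcj]
  have h8 : ((R : ℂ) ^ 2 - (w - c) * ((R : ℂ) ^ 2 / (z - c))) = (R : ℂ) ^ 2 * (z - w) / (z - c) := by
    field_simp
    ring
  have h9 : ((R : ℂ) ^ 2 * ((R : ℂ) ^ 2 / (z - c)) ^ (n + 1) /
      ((R : ℂ) ^ 2 * (z - w) / (z - c)) ^ (n + 2)) = (z - c) / (z - w) ^ (n + 2) := by
    rw [div_pow, div_pow, mul_pow]
    field_simp
    ring
  show (z - c) / (z - w) ^ (n + 2) * (starRingEnd ℂ) (f z) = (starRingEnd ℂ) (h z)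
  rw [h7, h8, h9]

/-- Herglotz type representation of the Taylor coefficients. -/
theorem herg_avg (c w : ℂ) (R : ℝ) (hw : w ∈ ball c R) (U : Set ℂ) (hU : IsOpen U)
    (hUc : closedBall c R ⊆ U) (n : ℕ) (f : ℂ → ℂ) (p : FormalMultilinearSeries ℂ ℂ ℂ)
    (hf : DifferentiableOn ℂ f U) (hp : HasFPowerSeriesAt f p w) :
    circleAverage (fun z => ((z - c) / (z - w) ^ (n + 2)) * ((2 * (f z).re : ℝ) : ℂ)) c R
      = p.coeff (n + 1) := by
  have hR : 0 < R := pos_of_mem_ball hw
  have h1 := coeff_avg c w R hw U hU hUc (n + 1) f p hf hp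
  have h2 := conj_avg c w R hw U hUc n f hf
  have hne : ∀ z ∈ sphere c R, z - w ≠ 0 := by
    intro z hz h
    have h1 : z = w := sub_eq_zero.1 h
    rw [h1] at hz
    rw [mem_ball] at hw
    rw [mem_sphere] at hz
    exact absurd hz hw.ne
  have hfc : ContinuousOn f (sphere c R) := hf.continuousOn.mono (sphere_subset_closedBall.trans hUc)
  have hk : ContinuousOn (fun z : ℂ => (z - c) / (z - w) ^ (n + 2)) (sphere c R) := by
    refine ContinuousOn.div (by fun_prop) (by fun_prop) ?_
    intro z hz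
    exact pow_ne_zero _ (hne z hz)
  have hi1 : CircleIntegrable (fun z => ((z - c) / (z - w) ^ (n + 1 + 1)) * f z) c R :=
    (hk.mul hfc).circleIntegrable hR.le
  have hi2 : CircleIntegrable (fun z => ((z - c) / (z - w) ^ (n + 2)) * (starRingEnd ℂ) (f z)) c R :=
    (hk.mul (Complex.continuous_conj.comp_continuousOn hfc)).circleIntegrable hR.le
  have h3 := circleAverage_fun_add hi1 hi2
  rw [h1, h2, add_zero] at h3
  rw [← h3]
  congr 1
  ext z
  rw [← mul_add]
  congr 1
  rw [Complex.add_conj]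

theorem norm_circleAverage_le (F : ℂ → ℂ) (c : ℂ) (R : ℝ) :
    ‖circleAverage F c R‖ ≤ circleAverage (fun z => ‖F z‖) c R := by
  rw [circleAverage_def, circleAverage_def, norm_smul, Real.norm_eq_abs,
    abs_of_pos (inv_pos.2 Real.two_pi_pos), smul_eq_mul]
  exact mul_le_mul_of_nonneg_left (intervalIntegral.norm_integral_le_integral_norm Real.two_pi_pos.le)
    (inv_pos.2 Real.two_pi_pos).le

/-- Bound of the Taylor coefficients of a function with nonnegative real part at a point of a disc. -/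
theorem coeff_bound (c w : ℂ) (R : ℝ) (hw : w ∈ ball c R) (U : Set ℂ) (hU : IsOpen U)
    (hUc : closedBall c R ⊆ U) (n : ℕ) (f : ℂ → ℂ) (p : FormalMultilinearSeries ℂ ℂ ℂ)
    (hf : DifferentiableOn ℂ f U) (hp : HasFPowerSeriesAt f p w) (hre : ∀ z ∈ U, 0 ≤ (f z).re) :
    ‖p.coeff (n + 1)‖ * ((R - ‖w - c‖) ^ (n + 1) * (R + ‖w - c‖)) ≤ 2 * R * (f w).re := by
  have hR : 0 < R := pos_of_mem_ball hw
  have hwR : ‖w - c‖ < R := by rwa [← mem_ball_iff_norm]
  have hρ : 0 ≤ ‖w - c‖ := norm_nonneg _
  set ρ := ‖w - c‖ with hρd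
  have hne : ∀ z ∈ sphere c R, R - ρ ≤ ‖z - w‖ := by
    intro z hz
    have h1 : ‖z - c‖ = R := by rwa [← mem_sphere_iff_norm]
    have h2 : ‖z - c‖ ≤ ‖z - w‖ + ‖w - c‖ := by
      have h3 : z - c = (z - w) + (w - c) := by ring
      rw [h3]
      exact norm_add_le _ _
    linarith
  have hD : 0 < (R - ρ) ^ (n + 1) * (R + ρ) := by
    have : 0 < R - ρ := by linarith
    positivity
  have hsub : sphere c R ⊆ U := sphere_subset_closedBall.trans hUc
  have hfc : ContinuousOn f (sphere c R) := hf.continuousOn.mono hsub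
  have hrec : ContinuousOn (fun z => (f z).re) (sphere c R) := Complex.continuous_re.comp_continuousOn hfc
  -- Poisson formula for the real part
  have hpk : ContinuousOn (fun z => poissonKernel c w z) (sphere c R) := by
    unfold poissonKernel
    refine ContinuousOn.div (by fun_prop) (by fun_prop) ?_
    intro z hz
    have h1 := hne z hz
    have h2 : (z - c) - (w - c) = z - w := by ring
    rw [h2]
    have : 0 < ‖z - w‖ := by linarith
    positivity
  have hpi : CircleIntegrable (fun z => poissonKernel c w z • f z) c R :=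
    (hpk.smul hfc).circleIntegrable hR.le
  have hpo : circleAverage (fun z => poissonKernel c w z * (f z).re) c R = (f w).re := by
    have h1 : DiffContOnCl ℂ f (ball c R) :=
      (hf.mono (closure_ball_subset_closedBall.trans hUc)).diffContOnCl
    have h2 := h1.circleAverage_poissonKernel_smul hw
    have h3 := Complex.reCLM.circleAverage_comp_comm hpi
    have h4 : circleAverage (fun z => poissonKernel c w z • f z) c R = f w := h2
    rw [h4] at h3
    rw [Complex.reCLM_apply] at h3
    rw [← h3]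
    congr 1
    ext z
    simp
  have hmain := herg_avg c w R hw U hU hUc n f p hf hp
  rw [← hmain]
  have hle := norm_circleAverage_le (fun z => ((z - c) / (z - w) ^ (n + 2)) * ((2 * (f z).re : ℝ) : ℂ)) c R
  have hkey : circleAverage (fun z => ‖((z - c) / (z - w) ^ (n + 2)) * ((2 * (f z).re : ℝ) : ℂ)‖) c R
      ≤ circleAverage (fun z => (2 * R / ((R - ρ) ^ (n + 1) * (R + ρ))) • (poissonKernel c w z * (f z).re)) c R := by
    refine circleAverage_mono ?_ ?_ ?_
    · refine ContinuousOn.circleIntegrable hR.le ?_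
      refine ContinuousOn.norm ?_
      refine ContinuousOn.mul ?_ ?_
      · refine ContinuousOn.div (by fun_prop) (by fun_prop) ?_
        intro z hz
        refine pow_ne_zero _ ?_
        intro h0
        have h1 := hne z hz
        rw [h0, norm_zero] at h1
        linarith
      · exact Complex.continuous_ofReal.comp_continuousOn (continuousOn_const.mul hrec)
    · refine ContinuousOn.circleIntegrable hR.le ?_
      exact (hpk.mul hrec).const_smul (2 * R / ((R - ρ) ^ (n + 1) * (R + ρ)))
    · intro z hz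
      rw [abs_of_pos hR] at hz
      have h1 : ‖z - c‖ = R := by rwa [← mem_sphere_iff_norm]
      have h2 := hne z hz
      have h3 : 0 ≤ (f z).re := hre z (hsub hz)
      have h4 : 0 < R - ρ := by linarith
      have h5 : 0 < ‖z - w‖ := by linarith
      have h6 : (z - c) - (w - c) = z - w := by ring
      rw [norm_mul, norm_div, norm_pow, h1, Complex.norm_real, Real.norm_eq_abs,
        abs_of_nonneg (by linarith : (0:ℝ) ≤ 2 * (f z).re)]
      unfold poissonKernel
      rw [h6, h1, ← hρd, smul_eq_mul]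
      have h7 : 2 * R / ((R - ρ) ^ (n + 1) * (R + ρ)) * ((R ^ 2 - ρ ^ 2) / ‖z - w‖ ^ 2 * (f z).re)
          = R / ((R - ρ) ^ n * ‖z - w‖ ^ 2) * (2 * (f z).re) := by
        have h8 : R ^ 2 - ρ ^ 2 = (R - ρ) * (R + ρ) := by ring
        rw [h8]
        have h9 : R + ρ ≠ 0 := by linarith
        have h10 : R - ρ ≠ 0 := h4.ne'
        field_simp
        ring
      rw [h7]
      refine mul_le_mul_of_nonneg_right ?_ (by linarith)
      refine div_le_div_of_nonneg_left hR.le (by positivity) ?_
      rw [pow_add]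
      refine mul_le_mul_of_nonneg_right ?_ (by positivity)
      exact pow_le_pow_left₀ h4.le h2 n
  rw [circleAverage_fun_smul, hpo, smul_eq_mul] at hkey
  have h11 := hle.trans hkey
  have h12 : 2 * R / ((R - ρ) ^ (n + 1) * (R + ρ)) * (f w).re
      = (2 * R * (f w).re) / ((R - ρ) ^ (n + 1) * (R + ρ)) := by ring
  rw [h12, le_div_iff₀ hD] at h11
  exact h11

/-- **(G3)** -/
theorem t_G3 : S_G3 := by
  intro v hv hre s j hs hj
  obtain ⟨n, rfl⟩ : ∃ n, j = n + 1 := ⟨j - 1, by omega⟩
  have hU : IsOpen {s : ℂ | 0 < s.re} := isOpen_lt continuous_const Complex.continuous_re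
  have han : AnalyticAt ℂ v s := hv.analyticAt (hU.mem_nhds hs)
  have hp := han.hasFPowerSeriesAt
  set X : ℝ := ‖iteratedDeriv (n + 1) v s‖ / (n + 1).factorial with hX
  have hXc : ‖(FormalMultilinearSeries.ofScalars ℂ
      (fun m : ℕ => iteratedDeriv m v s / m.factorial)).coeff (n + 1)‖ = X := by
    rw [FormalMultilinearSeries.coeff_ofScalars, norm_div, Complex.norm_natCast]
  have hX0 : 0 ≤ X := by positivity
  have hV0 : 0 ≤ (v s).re := hre s hs
  -- the bound with a smaller radius
  have step : ∀ D' : ℝ, 0 < D' → D' < s.re → X * D' ^ (n + 1) ≤ (v s).re := by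
    intro D' hD0 hD1
    by_contra hcon
    push Not at hcon
    have hall : ∀ t : ℝ, 0 < t → X * (D' ^ (n + 1) * (2 * t + D')) ≤ 2 * (t + D') * (v s).re := by
      intro t ht
      have hn : ‖s - (s + (t : ℂ))‖ = t := by
        have h1 : s - (s + (t : ℂ)) = -(t : ℂ) := by ring
        rw [h1, norm_neg, Complex.norm_real, Real.norm_eq_abs, abs_of_pos ht]
      have hw : s ∈ ball (s + (t : ℂ)) (t + D') := by
        rw [mem_ball_iff_norm, hn]
        linarith
      have hsub : closedBall (s + (t : ℂ)) (t + D') ⊆ {s : ℂ | 0 < s.re} := by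
        intro z hz
        rw [mem_closedBall_iff_norm] at hz
        have h1 : |(z - (s + (t : ℂ))).re| ≤ ‖z - (s + (t : ℂ))‖ := Complex.abs_re_le_norm _
        have h2 := (abs_le.1 (h1.trans hz)).1
        have h3 : (z - (s + (t : ℂ))).re = z.re - (s.re + t) := by simp
        rw [h3] at h2
        show 0 < z.re
        linarith
      have hb := coeff_bound (s + (t : ℂ)) s (t + D') hw {s : ℂ | 0 < s.re} hU hsub n v _ hv hp
        (fun z hz => hre z hz)
      rw [hXc, hn] at hb
      have e1 : t + D' - t = D' := by ring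
      have e2 : t + D' + t = 2 * t + D' := by ring
      rw [e1, e2] at hb
      exact hb
    have hgap : 0 < X * D' ^ (n + 1) - (v s).re := by linarith
    have ht0 : 0 < (D' * (v s).re + 1) / (X * D' ^ (n + 1) - (v s).re) :=
      div_pos (by positivity) hgap
    have h1 := hall _ ht0
    set t := (D' * (v s).re + 1) / (X * D' ^ (n + 1) - (v s).re) with ht
    have h2 : t * (X * D' ^ (n + 1) - (v s).re) = D' * (v s).re + 1 := div_mul_cancel₀ _ hgap.ne'
    have h3 : 0 ≤ X * D' ^ (n + 1) * D' := by positivity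
    nlinarith
  have hlim : X * s.re ^ (n + 1) ≤ (v s).re := by
    have ht : Tendsto (fun x : ℝ => X * x ^ (n + 1)) (𝓝[<] s.re) (𝓝 (X * s.re ^ (n + 1))) := by
      have h1 : ContinuousAt (fun x : ℝ => X * x ^ (n + 1)) s.re := by fun_prop
      exact h1.tendsto.mono_left nhdsWithin_le_nhds
    refine le_of_tendsto ht ?_
    have h2 : Ioo 0 s.re ∈ 𝓝[<] s.re := Ioo_mem_nhdsLT hs
    filter_upwards [h2] with x hx
    exact step x hx.1 hx.2
  rw [le_div_iff₀ (by positivity)]
  exact hlim

end Pool.Agent.H279.BV
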